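import Mathlib
import Pool.Agent.Lib.MPd02918.Defs
import Pool.Agent.Lib.MPd02918.Main
import Pool.Agent.Lib.MPd02918.Ultra

set_option autoImplicit false

open Pool.Agent.Lib.MPd02918

universe u

/-- **No uniform bound.** For every cardinal `κ` there is an ordered field `K` with more than `κ`
valuation rings `O ≠ K` that are convex and definable in `(K, <)` and whose image `Φ_K(O)` is not
definable in the ordered value group `G` of the natural valuation of `K`. -/
theorem Pool.Agent.Results.MP_d02918_lc.NoUniformBound.result (κ : Cardinal.{u}) :
    ∃ (K : Type u) (_ : Field K) (_ : LinearOrder K) (_ : IsStrictOrderedRing K),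
      κ < Cardinal.mk {O : ValuationSubring K | O ≠ ⊤ ∧ (O : Set K).OrdConnected ∧
        FieldDefinable K (O : Set K) ∧ ¬ GroupDefinable (ValueGroup K) (Phi K O)} := by
  let A : Type u := (Order.succ (max κ Cardinal.aleph0)).ord.ToType
  have hA : Cardinal.mk A = Order.succ (max κ Cardinal.aleph0) := Cardinal.mk_ord_toType _
  have hAinf : Infinite A := by
    rw [Cardinal.infinite_iff, hA]
    exact (le_max_right _ _).trans (Order.le_succ _)
  let S := setup A
  refine ⟨S.K, inferInstance, inferInstance, inferInstance, ?_⟩
  have h1 : κ < Cardinal.mk A := by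
    rw [hA]
    exact (le_max_left _ _).trans_lt (Order.lt_succ _)
  refine h1.trans_le ?_
  refine Cardinal.mk_le_of_injective (f := fun a => ⟨S.O a, S.O_ne_top a, S.O_ordConnected a,
    S.fieldDefinable a, S.not_groupDefinable a⟩) ?_
  intro a b hab
  exact S.O_injective (congrArg Subtype.val hab)
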